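import Pool.Agent.X38.TTPos
import Pool.Agent.X38.TTNeg2

/-!
# Modularity of total termination

Total termination is modular for disjoint term rewriting systems over countable (in particular
finite) signatures; over uncountable signatures modularity fails, already for one uncountable and
one countable signature.

All definitions used in the statement (`Sig`, `Term`, `TRS`, `TotallyTerminating`, `union`, …) are
in `Pool.Agent.X38.TTDefs`.
-/

set_option autoImplicit false

namespace Pool.Agent.Results.MP_8e1749_lc.TotalTermination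

open Pool.Agent.X38.TT

universe u

theorem result :
    (∀ S₁ S₂ : Sig.{u}, Countable S₁.Sym → Countable S₂.Sym → S₁.HasConst → S₂.HasConst →
      ∀ (R₁ : TRS S₁) (R₂ : TRS S₂), R₁.TotallyTerminating → R₂.TotallyTerminating →
        (R₁.union R₂).TotallyTerminating) ∧
    (∃ (S₁ S₂ : Sig.{0}) (R₁ : TRS S₁) (R₂ : TRS S₂), S₁.HasConst ∧ S₂.HasConst ∧
      Countable S₂.Sym ∧ R₁.Duplicating ∧ R₂.Duplicating ∧
        R₁.TotallyTerminating ∧ R₂.TotallyTerminating ∧ ¬ (R₁.union R₂).TotallyTerminating) := by
  refine ⟨fun S₁ S₂ h₁ h₂ c₁ c₂ R₁ R₂ t₁ t₂ => modular_of_countable S₁ S₂ c₁ c₂ R₁ R₂ t₁ t₂,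
    Sig1, Sig2, R1, R2, ?_, ⟨.c 0, rfl⟩, ?_, R1_dup, R2_dup, R1_tt, R2_tt, union_not_tt⟩
  · have i : M1 := Classical.choice (inferInstance : Nonempty M1)
    exact ⟨.d i, rfl⟩
  · let f : Sym2 → ℕ ⊕ ℕ ⊕ Unit := fun s => match s with
      | .c n => Sum.inl n
      | .u n => Sum.inr (Sum.inl n)
      | .g => Sum.inr (Sum.inr ())
    have hf : Function.Injective f := by
      intro s t h
      cases s <;> cases t <;> simp [f] at h <;> simp [h]
    exact hf.countable

end Pool.Agent.Results.MP_8e1749_lc.TotalTermination
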